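import Pool.Agent.H16.CX.Basic

/-!
# Module SUR: every point is a restriction of a point in `FE`
-/

set_option autoImplicit false

open Set Topology Filter MeasureTheory

namespace Pool.Agent.H50.CX

open Pool.Agent.H16.CX

attribute [local instance] Pool.Agent.H71.permTop

/-- the injection `i ↦ 2 i` -/
def dbl : ℕ ↪ ℕ := ⟨fun i => 2 * i, fun i j h => by
  have h' : 2 * i = 2 * j := h
  omega⟩

section
variable {X : Type} [MetricSpace X]

/-- the closure of the orbit under the stabilizer of `0, ..., k - 1` -/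
def Zk (R : RS X) (x : X) (k : ℕ) : Set X := closure {y | ∃ g ∈ VS k, R.res (pe g) x = y}

lemma Zk_nonempty (R : RS X) (x : X) (k : ℕ) : (Zk R x k).Nonempty :=
  ⟨x, subset_closure ⟨1, fun _ _ => rfl, res_one R x⟩⟩

lemma Zk_inv (R : RS X) (x : X) (k : ℕ) : InvK R k (Zk R x k) := by
  intro b hb y hy
  have h1 : ∀ s ∈ {y | ∃ g ∈ VS k, R.res (pe g) x = y}, R.res b s ∈ Zk R x k := by
    rintro s ⟨g, hg, rfl⟩
    rw [← R.comp]
    choose h hh using fun n => exists_perm (b.trans (pe g)) n
    have h2 : Tendsto (fun n => R.res (pe (h n)) x) atTop (𝓝 (R.res (b.trans (pe g)) x)) := by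
      refine tendsto_res R (fun n => pe (h n)) (b.trans (pe g)) (fun _ => x) x (fun i => ?_)
        tendsto_const_nhds
      filter_upwards [eventually_gt_atTop i] with n hn
      exact hh n i hn
    refine mem_closure_of_tendsto h2 ?_
    filter_upwards [eventually_ge_atTop k] with n hn
    refine ⟨h n, fun i hi => ?_, rfl⟩
    rw [hh n i (by omega)]
    show g (b i) = i
    rw [hb i hi]
    exact hg i hi
  have h2 : R.res b y ∈ closure (Zk R x k) := map_mem_closure (R.cont b) hy h1
  rwa [Zk, closure_closure] at h2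

lemma Zk_dist (R : RS X) (x : X) (ε : ℝ) (hε : 0 < ε) :
    ∃ n : ℕ, ∀ k ≥ n, ∀ y ∈ Zk R x k, dist y x ≤ ε := by
  obtain ⟨n, hn⟩ := R.unif ε hε
  refine ⟨n, fun k hk y hy => ?_⟩
  have h1 : Zk R x k ⊆ Metric.closedBall x ε := by
    refine closure_minimal ?_ Metric.isClosed_closedBall
    rintro s ⟨g, hg, rfl⟩
    have h2 := hn (pe g) (Function.Embedding.refl ℕ) (fun i hi => hg i (by omega)) x
    rw [R.one] at h2
    exact h2
  exact h1 hy

end

theorem pf_sur : T_SUR := by
  intro X _ _ R H x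
  choose d hd hd' using fun k => H k (Zk R x k) isClosed_closure (Zk_nonempty R x k)
    (Zk_inv R x k)
  have hdx : Tendsto d atTop (𝓝 x) := by
    rw [Metric.tendsto_atTop]
    intro ε hε
    obtain ⟨n, hn⟩ := Zk_dist R x (ε / 2) (by positivity)
    refine ⟨n, fun k hk => ?_⟩
    have := hn k hk (d k) (hd k)
    linarith
  choose g hg using fun k => exists_perm dbl k
  have hg' : ∀ k, ∀ i < k, (g k)⁻¹ (2 * i) = i := by
    intro k i hi
    rw [Equiv.Perm.inv_eq_iff_eq]
    exact (hg k i hi).symm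
  set y : ℕ → X := fun k => R.res (pe (g k)⁻¹) (d k) with hy
  have hA : ∀ τ : Equiv.Perm ℕ, (∀ i, τ (2 * i) = 2 * i) → ∀ k, R.res (pe τ) (y k) = y k := by
    intro τ hτ k
    simp only [hy]
    rw [← res_mul]
    have h1 : (g k)⁻¹ * τ = ((g k)⁻¹ * τ * g k) * (g k)⁻¹ := by group
    rw [h1, res_mul]
    congr 1
    refine hd' k _ fun i hi => ?_
    rw [Equiv.Perm.mul_apply, Equiv.Perm.mul_apply, hg k i hi]
    show (g k)⁻¹ (τ (2 * i)) = i
    rw [hτ, hg' k i hi]
  have hB : Tendsto (fun k => R.res dbl (y k)) atTop (𝓝 x) := by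
    have h1 := tendsto_res R (fun k => dbl.trans (pe (g k)⁻¹)) (Function.Embedding.refl ℕ) d x
      (fun i => by
        filter_upwards [eventually_gt_atTop i] with k hk
        exact hg' k i hk) hdx
    rw [R.one] at h1
    refine h1.congr fun k => ?_
    rw [R.comp]
  obtain ⟨z, φ, hφ, hz⟩ := CompactSpace.tendsto_subseq y
  refine ⟨z, fun τ hτ => ?_, fun b hb => ?_⟩
  · have h1 : Tendsto (fun n => R.res (pe τ) (y (φ n))) atTop (𝓝 (R.res (pe τ) z)) :=
      ((R.cont _).tendsto z).comp hz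
    have h2 : (fun n => R.res (pe τ) (y (φ n))) = y ∘ φ := by
      funext n
      exact hA τ hτ (φ n)
    rw [h2] at h1
    exact tendsto_nhds_unique h1 hz
  · have hbd : b = dbl := Function.Embedding.ext hb
    rw [hbd]
    have h1 : Tendsto (fun n => R.res dbl (y (φ n))) atTop (𝓝 (R.res dbl z)) :=
      ((R.cont _).tendsto z).comp hz
    exact tendsto_nhds_unique h1 (hB.comp hφ.tendsto_atTop)

end Pool.Agent.H50.CX
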