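import Pool.Agent.H16.CX.Targets2

/-!
# Module TAM: the dichotomy for tame actions
-/

set_option autoImplicit false

open Set Topology Filter MeasureTheory

namespace Pool.Agent.H50.CX

open Pool.Agent.H16.CX

attribute [local instance] Pool.Agent.H71.permTop

lemma inv_app (g : Equiv.Perm ℕ) (i : ℕ) : g⁻¹ (g i) = i := g.symm_apply_apply i

lemma app_inv (g : Equiv.Perm ℕ) (i : ℕ) : g (g⁻¹ i) = i := g.apply_symm_apply i

/-- the permutation `g`, shifted by `k` -/
def shf (k : ℕ) (g : Equiv.Perm ℕ) : Equiv.Perm ℕ where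
  toFun i := if i < k then i else k + g (i - k)
  invFun i := if i < k then i else k + g⁻¹ (i - k)
  left_inv i := by
    by_cases h : i < k
    · simp [h]
    · have h1 : ¬ (k + g (i - k) < k) := by omega
      simp only [h, if_false, h1, Nat.add_sub_cancel_left, inv_app]
      omega
  right_inv i := by
    by_cases h : i < k
    · simp [h]
    · have h1 : ¬ (k + g⁻¹ (i - k) < k) := by omega
      simp only [h, if_false, h1, Nat.add_sub_cancel_left, app_inv]
      omega

lemma shf_lt (k : ℕ) (g : Equiv.Perm ℕ) {i : ℕ} (h : i < k) : shf k g i = i := if_pos h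

lemma shf_ge (k : ℕ) (g : Equiv.Perm ℕ) {i : ℕ} (h : ¬ i < k) : shf k g i = k + g (i - k) :=
  if_neg h

lemma shf_one (k : ℕ) : shf k 1 = 1 := by
  ext i
  by_cases h : i < k
  · rw [shf_lt k _ h]; rfl
  · rw [shf_ge k _ h, Equiv.Perm.one_apply, Equiv.Perm.one_apply]
    omega

lemma shf_mul (k : ℕ) (g h : Equiv.Perm ℕ) : shf k (g * h) = shf k g * shf k h := by
  ext i
  rw [Equiv.Perm.mul_apply]
  by_cases hi : i < k
  · rw [shf_lt k _ hi, shf_lt k h hi, shf_lt k g hi]
  · have h1 : ¬ (k + h (i - k) < k) := by omega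
    rw [shf_ge k _ hi, shf_ge k h hi, shf_ge k g h1, Nat.add_sub_cancel_left,
      Equiv.Perm.mul_apply]

lemma shf_mem (k : ℕ) (g : Equiv.Perm ℕ) : shf k g ∈ VS k := fun _ hi => shf_lt k g hi

lemma shf_mem' (k n : ℕ) {g : Equiv.Perm ℕ} (hg : g ∈ VS n) : shf k g ∈ VS n := by
  intro i hi
  by_cases h : i < k
  · exact shf_lt k g h
  · rw [shf_ge k g h, hg (i - k) (by omega)]
    omega

lemma ge_of_mem {k : ℕ} {g : Equiv.Perm ℕ} (hg : g ∈ VS k) (i : ℕ) : k ≤ g (k + i) := by
  by_contra h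
  have h1 := hg _ (not_le.1 h)
  have h2 := g.injective h1
  omega

lemma inv_mem {k : ℕ} {g : Equiv.Perm ℕ} (hg : g ∈ VS k) : g⁻¹ ∈ VS k := by
  intro i hi
  rw [Equiv.Perm.inv_eq_iff_eq]
  exact (hg i hi).symm

lemma exists_shf {k : ℕ} {g : Equiv.Perm ℕ} (hg : g ∈ VS k) : ∃ g', shf k g' = g := by
  refine ⟨⟨fun i => g (k + i) - k, fun i => g⁻¹ (k + i) - k, fun i => ?_, fun i => ?_⟩, ?_⟩
  · have h1 := ge_of_mem hg i
    show g⁻¹ (k + (g (k + i) - k)) - k = i
    rw [show k + (g (k + i) - k) = g (k + i) by omega, inv_app]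
    omega
  · have h1 := ge_of_mem (inv_mem hg) i
    show g (k + (g⁻¹ (k + i) - k)) - k = i
    rw [show k + (g⁻¹ (k + i) - k) = g⁻¹ (k + i) by omega, app_inv]
    omega
  · ext i
    by_cases h : i < k
    · rw [shf_lt k _ h, hg i h]
    · rw [shf_ge k _ h]
      show k + (g (k + (i - k)) - k) = g i
      have h1 := ge_of_mem hg (i - k)
      rw [show k + (i - k) = i by omega] at h1 ⊢
      omega

theorem pf_tam : T_UNC → T_TBD → T_CCA → T_LOC → T_TAM := by
  intro hUNC hTBD hCCA hLOC X _ _ _ _ _ _ hact htame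
  by_cases hPM : ∃ f : (ℕ → Bool) → X, Measurable f ∧
      ∀ s t, s ≠ t → ∀ g : Equiv.Perm ℕ, g • f s ≠ f t
  · exact Or.inr hPM
  refine hLOC X hact fun x => ?_
  obtain ⟨k, hcompl, hunif⟩ := htame x
  refine ⟨k, ?_⟩
  set S : Set X := {y | ∃ g ∈ VS k, g • x = y} with hS
  have hcg : ∀ g : Equiv.Perm ℕ, Continuous fun y : X => g • y := fun g =>
    hact.comp (continuous_const.prodMk continuous_id)
  have hinv : ∀ g ∈ VS k, ∀ y ∈ closure S, g • y ∈ closure S := by
    intro g hg y hy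
    refine map_mem_closure (hcg g) hy ?_
    rintro s ⟨h, hh, rfl⟩
    refine ⟨g * h, fun i hi => ?_, mul_smul g h x⟩
    rw [Equiv.Perm.mul_apply, hh i hi, hg i hi]
  have hunif' : ∀ ε > (0 : ℝ), ∃ n : ℕ, ∀ g ∈ VS n, ∀ y ∈ closure S, dist (g • y) y ≤ ε := by
    intro ε hε
    obtain ⟨n, hn⟩ := hunif ε hε
    refine ⟨n, fun g hg y hy => ?_⟩
    have h1 : closure S ⊆ {y : X | dist (g • y) y ≤ ε} := by
      refine closure_minimal ?_ (isClosed_le ((hcg g).dist continuous_id) continuous_const)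
      rintro s ⟨h, hh, rfl⟩
      exact hn g hg h hh
    exact h1 hy
  have hxS : x ∈ closure S := subset_closure ⟨1, fun _ _ => rfl, one_smul _ x⟩
  let Y : Type := {y : X // y ∈ closure S}
  let _ : MetricSpace Y := inferInstanceAs (MetricSpace {y : X // y ∈ closure S})
  let _ : MeasurableSpace Y := inferInstanceAs (MeasurableSpace {y : X // y ∈ closure S})
  have : BorelSpace Y := inferInstanceAs (BorelSpace {y : X // y ∈ closure S})
  have : CompleteSpace Y := hcompl.completeSpace_coe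
  let _ : MulAction (Equiv.Perm ℕ) Y :=
    { smul := fun g y => ⟨shf k g • y.1, hinv _ (shf_mem k g) _ y.2⟩
      one_smul := fun y => by
        refine Subtype.ext ?_
        show shf k 1 • y.1 = y.1
        rw [shf_one, one_smul]
      mul_smul := fun g h y => by
        refine Subtype.ext ?_
        show shf k (g * h) • y.1 = shf k g • (shf k h • y.1)
        rw [shf_mul, mul_smul] }
  have hsm : ∀ (g : Equiv.Perm ℕ) (y : Y), (g • y).1 = shf k g • y.1 := fun _ _ => rfl
  obtain ⟨R, hR⟩ := hUNC Y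
    (fun g => Continuous.subtype_mk ((hcg (shf k g)).comp continuous_subtype_val) _)
    (by
      intro ε hε
      obtain ⟨n, hn⟩ := hunif' ε hε
      refine ⟨n, fun g hg y => ?_⟩
      exact hn (shf k g) (shf_mem' k n hg) y.1 y.2)
  let x₀ : Y := ⟨x, hxS⟩
  by_cases hTB : TotallyBounded {y : Y | Eqv R x₀ y}
  · have h1 : (Subtype.val : Y → X) '' {y : Y | Eqv R x₀ y} = S := by
      ext y
      constructor
      · rintro ⟨z, ⟨g, hg⟩, rfl⟩
        refine ⟨shf k g⁻¹, shf_mem k _, ?_⟩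
        rw [← hg, hR]
        rfl
      · rintro ⟨g, hg, rfl⟩
        obtain ⟨g', rfl⟩ := exists_shf hg
        refine ⟨g' • x₀, ⟨g'⁻¹, ?_⟩, rfl⟩
        rw [hR, inv_inv]
    have h2 : TotallyBounded S := by
      rw [← h1]
      exact hTB.image uniformContinuous_subtype_val
    exact isCompact_iff_totallyBounded_isComplete.2 ⟨h2.closure, hcompl⟩
  · exfalso
    obtain ⟨f, hf, hf'⟩ := hTBD Y R x₀ hTB
    obtain ⟨f', h1, h2⟩ := hCCA X hact k (fun s => (f s).1) (measurable_subtype_coe.comp hf) (by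
      intro s t hst g hg h
      obtain ⟨g', rfl⟩ := exists_shf hg
      refine hf' s t hst ⟨g'⁻¹, ?_⟩
      rw [hR, inv_inv]
      exact Subtype.ext h)
    exact hPM ⟨f', h1, h2⟩

end Pool.Agent.H50.CX
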